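import Pool.Agent.Helper5.FRD.Goals

/-!
# Packet FRD-FOURH: four odd circuits and an even one (after Helper59/FRC/FOUR.lean)
-/

set_option autoImplicit false

namespace Pool.Agent.Helper41.FRD.FOURH

open Finset Pool.Agent.Helper5.FRC Pool.Agent.Helper5.FRD

lemma graph4 (a01 a02 a03 a12 a13 a23 : Prop) (h0 : a01 ∨ a02 ∨ a03) (h1 : a01 ∨ a12 ∨ a13) (h2 : a02 ∨ a12 ∨ a23)
    (h3 : a03 ∨ a13 ∨ a23) (g1 : ¬ (a01 ∧ a23)) (g2 : ¬ (a02 ∧ a13)) (g3 : ¬ (a03 ∧ a12)) :
    (¬ a12 ∧ ¬ a13 ∧ ¬ a23) ∨ (¬ a02 ∧ ¬ a03 ∧ ¬ a23) ∨ (¬ a01 ∧ ¬ a03 ∧ ¬ a13) ∨ (¬ a01 ∧ ¬ a02 ∧ ¬ a12) := by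
  by_cases h01 : a01 <;> by_cases h02 : a02 <;> by_cases h03 : a03 <;> by_cases h12 : a12 <;>
    by_cases h13 : a13 <;> by_cases h23 : a23 <;>
    simp only [h01, h02, h03, h12, h13, h23, true_or, or_true, or_false, false_or, true_and, and_true, false_and, and_false,
      not_true_eq_false, not_false_eq_true, or_self, and_self] at *

theorem t (h1 : PmhStmt) (h2 : StarhStmt) (h3 : ClosehStmt) (h4 : Pool.Agent.Helper5.FRC.EvenpStmt)
    (_h5 : Pool.Agent.Helper5.FRC.SubmStmt) : Pool.Agent.Helper5.FRD.FourhStmt := by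
  intro V _ _ n A t C Z hF
  obtain ⟨hn, ht, hB, hC, hodd, hdis, hZ, hZe, hdZ, hA⟩ := hF
  have hZA : Z ⊆ A := by
    intro x hx
    rw [hA, mem_union]
    exact Or.inr hx
  obtain ⟨p, _, hp, _, hpn⟩ := h4 V n Z hZ hZe
  have hAlg : Alg n Z p := ⟨hp, fun z hz => (hpn z hz).1⟩
  obtain ⟨t', hR⟩ := h3 V A Z t p ht hZA hp
  have ht' : Prg (A \ Z) t' := hR.1
  have hsub : ∀ i, C i ⊆ A \ Z := by
    intro i x hx
    rw [mem_sdiff]
    refine ⟨?_, fun hxZ => (Finset.disjoint_left.1 (hdZ i)) hx hxZ⟩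
    rw [hA, mem_union, mem_biUnion]
    exact Or.inl ⟨i, mem_univ i, hx⟩
  have hcov : ∀ x ∈ A \ Z, ∃ i, x ∈ C i := by
    intro x hx
    rw [mem_sdiff] at hx
    obtain ⟨hxA, hxZ⟩ := hx
    rw [hA, mem_union, mem_biUnion] at hxA
    rcases hxA with ⟨i, _, hi⟩ | h
    · exact ⟨i, hi⟩
    · exact absurd h hxZ
  let E : Fin 4 → Fin 4 → Prop := fun i j => ∃ x ∈ C i, t' x ∈ C j
  have hsym : ∀ i j, E i j → E j i := by
    rintro i j ⟨x, hx, htx⟩
    refine ⟨t' x, htx, ?_⟩
    rw [(ht' x (hsub i hx)).2.1]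
    exact hx
  have hnb : ∀ i, ∃ j, j ≠ i ∧ E i j := by
    intro i
    by_contra hcon
    push Not at hcon
    have hcl : ∀ x ∈ C i, t' x ∈ C i := by
      intro x hx
      obtain ⟨j, hj⟩ := hcov (t' x) (ht' x (hsub i hx)).1
      by_cases hji : j = i
      · rw [← hji]; exact hj
      · exact absurd ⟨x, hx, hj⟩ (hcon j hji)
    have hs : ∑ x ∈ C i, (1 : ZMod 2) = 0 := by
      refine sum_involution (fun x _ => t' x) ?_ ?_ ?_ ?_
      · intro x _
        decide
      · intro x hx _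
        exact (ht' x (hsub i hx)).2.2
      · intro x hx
        exact hcl x hx
      · intro x hx
        exact (ht' x (hsub i hx)).2.1
    rw [sum_const, nsmul_eq_mul, mul_one, ZMod.natCast_eq_zero_iff_even] at hs
    exact (Nat.not_even_iff_odd.2 (hodd i)) hs
  have hAe : ∀ e : Equiv.Perm (Fin 4), A = univ.biUnion (fun i => C (e i)) ∪ Z := by
    intro e
    ext x
    rw [mem_union, mem_biUnion]
    constructor
    · intro hx
      by_cases hxZ : x ∈ Z
      · exact Or.inr hxZ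
      · obtain ⟨i, hi⟩ := hcov x (mem_sdiff.2 ⟨hx, hxZ⟩)
        exact Or.inl ⟨e.symm i, mem_univ _, by rw [e.apply_symm_apply]; exact hi⟩
    · rintro (⟨i, _, hi⟩ | hxZ)
      · exact (mem_sdiff.1 (hsub _ hi)).1
      · exact hZA hxZ
  have hFe : ∀ e : Equiv.Perm (Fin 4), Five n A t (fun i => C (e i)) Z := by
    intro e
    exact ⟨hn, ht, hB, fun i => hC _, fun i => hodd _, fun i j hij => hdis _ _ (fun h => hij (e.injective h)),
      hZ, hZe, fun i => hdZ _, hAe e⟩
  have hpair : ∀ e : Equiv.Perm (Fin 4), E (e 0) (e 1) → E (e 2) (e 3) → SolH n A t := by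
    rintro e ⟨x, hx, htx⟩ ⟨y, hy, hty⟩
    exact h1 V n A t (fun i => C (e i)) Z (hFe e) p t' hAlg hR x hx htx y hy hty
  have hstar : ∀ c : Fin 4, (∀ i j, i ≠ c → j ≠ c → i ≠ j → ¬ E i j) → SolH n A t := by
    intro c hc
    refine h2 V n A t (fun i => C (Equiv.swap 3 c i)) Z (hFe _) p t' hAlg hR ?_
    intro i hi x hx
    have hic : Equiv.swap 3 c i ≠ c := by
      intro h
      have h2 : Equiv.swap 3 c 3 = c := Equiv.swap_apply_left 3 c
      exact hi ((Equiv.swap 3 c).injective (h.trans h2.symm))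
    obtain ⟨j, hj⟩ := hcov (t' x) (ht' x (hsub _ hx)).1
    by_cases h1 : j = Equiv.swap 3 c i
    · left
      show t' x ∈ C (Equiv.swap 3 c i)
      rw [← h1]
      exact hj
    · right
      show t' x ∈ C (Equiv.swap 3 c 3)
      rw [Equiv.swap_apply_left]
      by_cases h2 : j = c
      · rw [← h2]; exact hj
      · exact absurd ⟨x, hx, hj⟩ (hc _ j hic h2 (fun h => h1 h.symm))
  by_cases g1 : E 0 1 ∧ E 2 3
  · exact hpair 1 g1.1 g1.2
  by_cases g2 : E 0 2 ∧ E 1 3
  · refine hpair (Equiv.swap 1 2) ?_ ?_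
    · exact g2.1
    · exact g2.2
  by_cases g3 : E 0 3 ∧ E 1 2
  · refine hpair (Equiv.swap 1 3) ?_ ?_
    · exact g3.1
    · exact hsym _ _ g3.2
  have s0 : E 0 1 ∨ E 0 2 ∨ E 0 3 := by
    obtain ⟨j, hj, he⟩ := hnb 0
    fin_cases j
    · exact absurd rfl hj
    · exact Or.inl he
    · exact Or.inr (Or.inl he)
    · exact Or.inr (Or.inr he)
  have s1 : E 0 1 ∨ E 1 2 ∨ E 1 3 := by
    obtain ⟨j, hj, he⟩ := hnb 1
    fin_cases j
    · exact Or.inl (hsym _ _ he)
    · exact absurd rfl hj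
    · exact Or.inr (Or.inl he)
    · exact Or.inr (Or.inr he)
  have s2 : E 0 2 ∨ E 1 2 ∨ E 2 3 := by
    obtain ⟨j, hj, he⟩ := hnb 2
    fin_cases j
    · exact Or.inl (hsym _ _ he)
    · exact Or.inr (Or.inl (hsym _ _ he))
    · exact absurd rfl hj
    · exact Or.inr (Or.inr he)
  have s3 : E 0 3 ∨ E 1 3 ∨ E 2 3 := by
    obtain ⟨j, hj, he⟩ := hnb 3
    fin_cases j
    · exact Or.inl (hsym _ _ he)
    · exact Or.inr (Or.inl (hsym _ _ he))
    · exact Or.inr (Or.inr (hsym _ _ he))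
    · exact absurd rfl hj
  rcases graph4 _ _ _ _ _ _ s0 s1 s2 s3 g1 g2 g3 with h | h | h | h
  · apply hstar 0
    intro i j hi hj hij he
    fin_cases i <;> fin_cases j
    all_goals first
      | exact absurd rfl hi
      | exact absurd rfl hj
      | exact absurd rfl hij
      | exact h.1 he
      | exact h.2.1 he
      | exact h.2.2 he
      | exact h.1 (hsym _ _ he)
      | exact h.2.1 (hsym _ _ he)
      | exact h.2.2 (hsym _ _ he)
  · apply hstar 1
    intro i j hi hj hij he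
    fin_cases i <;> fin_cases j
    all_goals first
      | exact absurd rfl hi
      | exact absurd rfl hj
      | exact absurd rfl hij
      | exact h.1 he
      | exact h.2.1 he
      | exact h.2.2 he
      | exact h.1 (hsym _ _ he)
      | exact h.2.1 (hsym _ _ he)
      | exact h.2.2 (hsym _ _ he)
  · apply hstar 2
    intro i j hi hj hij he
    fin_cases i <;> fin_cases j
    all_goals first
      | exact absurd rfl hi
      | exact absurd rfl hj
      | exact absurd rfl hij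
      | exact h.1 he
      | exact h.2.1 he
      | exact h.2.2 he
      | exact h.1 (hsym _ _ he)
      | exact h.2.1 (hsym _ _ he)
      | exact h.2.2 (hsym _ _ he)
  · apply hstar 3
    intro i j hi hj hij he
    fin_cases i <;> fin_cases j
    all_goals first
      | exact absurd rfl hi
      | exact absurd rfl hj
      | exact absurd rfl hij
      | exact h.1 he
      | exact h.2.1 he
      | exact h.2.2 he
      | exact h.1 (hsym _ _ he)
      | exact h.2.1 (hsym _ _ he)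
      | exact h.2.2 (hsym _ _ he)

end Pool.Agent.Helper41.FRD.FOURH
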